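import Mathlib
import Pool.Agent.Helper507.PNT

set_option autoImplicit false

/-!
# Colouring the grid with classes without three points on a line

The classes `y - x ^ 2 = k` modulo a prime `p ≥ n` have no three points of `[n] ^ 2` on a line, and
by the prime number theorem `p` may be taken at most `(1 + ε) n`.
-/

namespace Pool.Agent.NH91.Old.Parabolas

open Filter Topology

/-- The point of the real plane with the coordinates of a point of the integer grid. -/
def toPlane (a : ℕ × ℕ) : ℝ × ℝ := ((a.1 : ℝ), (a.2 : ℝ))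

/-- `a` is a point of the grid `{1, ..., n} ^ 2`. -/
def InGrid (n : ℕ) (a : ℕ × ℕ) : Prop := (1 ≤ a.1 ∧ a.1 ≤ n) ∧ (1 ≤ a.2 ∧ a.2 ≤ n)

/-- The colouring `f` of the grid `{1, ..., n} ^ 2` is admissible: no three distinct points of the
grid with one colour lie on a line. -/
def Admissible (n k : ℕ) (f : ℕ × ℕ → Fin k) : Prop :=
  ∀ a b c : ℕ × ℕ, InGrid n a → InGrid n b → InGrid n c → a ≠ b → a ≠ c → b ≠ c →
    f a = f b → f a = f c → ¬ Collinear ℝ ({toPlane a, toPlane b, toPlane c} : Set (ℝ × ℝ))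

lemma det_of_collinear {a b c : ℕ × ℕ}
    (h : Collinear ℝ ({toPlane a, toPlane b, toPlane c} : Set (ℝ × ℝ))) :
    ((b.1 : ℤ) - a.1) * ((c.2 : ℤ) - a.2) = ((c.1 : ℤ) - a.1) * ((b.2 : ℤ) - a.2) := by
  rw [collinear_iff_of_mem (p₀ := toPlane a) (by simp)] at h
  obtain ⟨v, hv⟩ := h
  obtain ⟨r, hr⟩ := hv (toPlane b) (by simp)
  obtain ⟨s, hs⟩ := hv (toPlane c) (by simp)
  have b1 := congrArg Prod.fst hr
  have b2 := congrArg Prod.snd hr
  have c1 := congrArg Prod.fst hs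
  have c2 := congrArg Prod.snd hs
  simp only [toPlane, vadd_eq_add, Prod.fst_add, Prod.snd_add, Prod.smul_fst, Prod.smul_snd,
    smul_eq_mul] at b1 b2 c1 c2
  have : ((b.1 : ℝ) - a.1) * ((c.2 : ℝ) - a.2) = ((c.1 : ℝ) - a.1) * ((b.2 : ℝ) - a.2) := by
    rw [b1, b2, c1, c2]
    ring
  exact_mod_cast this

lemma eq_of_zmod {n p : ℕ} (hnp : n ≤ p) {x y : ℕ} (hx : 1 ≤ x ∧ x ≤ n) (hy : 1 ≤ y ∧ y ≤ n)
    (h : (x : ZMod p) = y) : x = y := by
  have h1 : x ≡ y [MOD p] := (ZMod.natCast_eq_natCast_iff _ _ _).1 h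
  have h2 : (x - 1) + 1 ≡ (y - 1) + 1 [MOD p] := by
    rwa [Nat.sub_add_cancel hx.1, Nat.sub_add_cancel hy.1]
  have h3 : x - 1 ≡ y - 1 [MOD p] := Nat.ModEq.add_right_cancel' 1 h2
  have h4 := Nat.ModEq.eq_of_lt_of_lt h3 (by omega) (by omega)
  omega

/-- the parabolas modulo a prime -/
lemma admissible_parabola {n p : ℕ} [hp : Fact p.Prime] (hnp : n ≤ p) (e : ZMod p ≃ Fin p) :
    Admissible n p (fun a => e ((a.2 : ZMod p) - (a.1 : ZMod p) ^ 2)) := by
  intro a b c ha hb hc hab hac hbc h1 h2 hcol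
  have e1 := e.injective h1
  have e2 := e.injective h2
  have hd := det_of_collinear hcol
  have hd' : ((b.1 : ZMod p) - a.1) * ((c.2 : ZMod p) - a.2) =
      ((c.1 : ZMod p) - a.1) * ((b.2 : ZMod p) - a.2) := by
    have := congrArg (Int.cast : ℤ → ZMod p) hd
    push_cast at this
    exact this
  have y1 : (b.2 : ZMod p) - a.2 = (b.1 : ZMod p) ^ 2 - (a.1 : ZMod p) ^ 2 := by
    linear_combination (-1 : ZMod p) * e1
  have y2 : (c.2 : ZMod p) - a.2 = (c.1 : ZMod p) ^ 2 - (a.1 : ZMod p) ^ 2 := by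
    linear_combination (-1 : ZMod p) * e2
  rw [y1, y2] at hd'
  have key : ((b.1 : ZMod p) - a.1) * (((c.1 : ZMod p) - a.1) * ((c.1 : ZMod p) - b.1)) = 0 := by
    linear_combination hd'
  rcases mul_eq_zero.1 key with h | h
  · have hx : b.1 = a.1 := eq_of_zmod hnp hb.1 ha.1 (sub_eq_zero.1 h)
    rw [hx, sub_self] at y1
    have hy : b.2 = a.2 := eq_of_zmod hnp hb.2 ha.2 (sub_eq_zero.1 y1)
    exact hab (Prod.ext hx.symm hy.symm)
  · rcases mul_eq_zero.1 h with h | h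
    · have hx : c.1 = a.1 := eq_of_zmod hnp hc.1 ha.1 (sub_eq_zero.1 h)
      rw [hx, sub_self] at y2
      have hy : c.2 = a.2 := eq_of_zmod hnp hc.2 ha.2 (sub_eq_zero.1 y2)
      exact hac (Prod.ext hx.symm hy.symm)
    · have hx : c.1 = b.1 := eq_of_zmod hnp hc.1 hb.1 (sub_eq_zero.1 h)
      have y3 : (c.2 : ZMod p) - b.2 = 0 := by
        have h3 : (c.1 : ZMod p) = b.1 := sub_eq_zero.1 h
        rw [h3] at y2
        linear_combination y2 - y1
      have hy : c.2 = b.2 := eq_of_zmod hnp hc.2 hb.2 (sub_eq_zero.1 y3)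
      exact hbc (Prod.ext hx.symm hy.symm)

/-- primes in short intervals, from the prime number theorem -/
lemma prime_between {ε : ℝ} (hε : 0 < ε) :
    ∀ᶠ n : ℕ in atTop, ∃ p : ℕ, p.Prime ∧ n ≤ p ∧ (p : ℝ) ≤ (1 + ε) * n := by
  have hT := Pool.Agent.Helper507.PNT.theta_div_tendsto
  have h1 : Tendsto (fun n : ℕ => (n : ℝ)) atTop atTop := tendsto_natCast_atTop_atTop
  have h2 : Tendsto (fun n : ℕ => (1 + ε) * (n : ℝ)) atTop atTop :=
    h1.const_mul_atTop (by linarith)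
  have hδ : 0 < ε / (2 + ε) := by positivity
  filter_upwards [(hT.comp h1).eventually (gt_mem_nhds (show (1 : ℝ) < 1 + ε / (2 + ε) by linarith)),
    (hT.comp h2).eventually (lt_mem_nhds (show 1 - ε / (2 + ε) < (1:ℝ) by linarith)),
    eventually_gt_atTop 0] with n ha hb hn
  have hn0 : (0 : ℝ) < n := by exact_mod_cast hn
  simp only [Function.comp] at ha hb
  rw [div_lt_iff₀ hn0] at ha
  rw [lt_div_iff₀ (by positivity)] at hb
  by_contra hcon
  push Not at hcon
  have hθ : Chebyshev.theta ((1 + ε) * n) = Chebyshev.theta n := by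
    unfold Chebyshev.theta
    symm
    apply Finset.sum_subset
    · intro q hq
      rw [Finset.mem_filter, Finset.mem_Ioc] at hq ⊢
      refine ⟨⟨hq.1.1, hq.1.2.trans (Nat.floor_mono ?_)⟩, hq.2⟩
      nlinarith
    · intro q hq hq'
      exfalso
      rw [Finset.mem_filter, Finset.mem_Ioc] at hq hq'
      apply hq'
      refine ⟨⟨hq.1.1, ?_⟩, hq.2⟩
      rw [Nat.floor_natCast]
      by_contra hlt
      have h3 := hcon q hq.2 (by omega)
      have h4 : (q : ℝ) ≤ (1 + ε) * n := (Nat.le_floor_iff (by positivity)).1 hq.1.2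
      linarith
  rw [hθ] at hb
  have e : (1 - ε / (2 + ε)) * ((1 + ε) * n) = (1 + ε / (2 + ε)) * n := by
    field_simp
    ring
  linarith

/-- For every `ε > 0` and all large `n`, the grid `[n] ^ 2` has an admissible colouring with at most
`(1 + ε) n` colours. -/
theorem result : ∀ ε : ℝ, 0 < ε → ∀ᶠ n : ℕ in atTop,
    ∃ k : ℕ, (k : ℝ) ≤ (1 + ε) * n ∧ ∃ f : ℕ × ℕ → Fin k, Admissible n k f := by
  intro ε hε
  filter_upwards [prime_between hε] with n hn
  obtain ⟨p, hp, hnp, hle⟩ := hn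
  have : Fact p.Prime := ⟨hp⟩
  have : NeZero p := ⟨hp.ne_zero⟩
  exact ⟨p, hle, _, admissible_parabola hnp (ZMod.finEquiv p).toEquiv.symm⟩

end Pool.Agent.NH91.Old.Parabolas
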